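import Pool.Agent.H77.EA.Targets3

/-! XS: existence and uniqueness of the factor set. -/

open scoped Classical

namespace Pool.Agent.H31.EA.XS

open Representation

variable {G : Type} [Group G] {n m : ℕ}

/-- two representations with equal characters, the first irreducible: there is an isomorphism -/
lemma exists_iso [Fintype G] (r : Representation ℂ G (Fin n → ℂ)) (hr : r.IsIrreducible)
    (s : Representation ℂ G (Fin m → ℂ)) (h : ∀ g, s.character g = r.character g) :
    ∃ f : (Fin n → ℂ) ≃ₗ[ℂ] (Fin m → ℂ), ∀ g v, f (r g v) = s g (f v) := by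
  have hc0 : ((Nat.card G : ℕ) : ℂ) ≠ 0 := by
    exact_mod_cast Nat.card_pos.ne'
  haveI : Invertible (Nat.card G : ℂ) := invertibleOfNonzero hc0
  haveI := hr
  have h1 := card_inv_mul_sum_char_mul_char_eq_finrank r s
  have h2 := card_inv_mul_sum_char_mul_char_eq_finrank r r
  have h3 : (Module.finrank ℂ (IntertwiningMap r s) : ℂ) =
      (Module.finrank ℂ (IntertwiningMap r r) : ℂ) := by
    rw [← h1, ← h2]
    simp only [h]
  rw [IsIrreducible.finrank_intertwiningMap_self r] at h3
  have h4 : Module.finrank ℂ (IntertwiningMap r s) = 1 := by exact_mod_cast h3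
  have h5 : Nontrivial (IntertwiningMap r s) := by
    apply Module.nontrivial_of_finrank_pos (R := ℂ)
    rw [h4]
    exact one_pos
  obtain ⟨f, hf⟩ := exists_ne (0 : IntertwiningMap r s)
  have hinj : Function.Injective f := (IsIrreducible.injective_or_eq_zero f).resolve_right hf
  have hdim : n = m := by
    have := h 1
    rw [char_one, char_one, Module.finrank_fin_fun, Module.finrank_fin_fun] at this
    exact_mod_cast this.symm
  have hfr : Module.finrank ℂ (Fin n → ℂ) = Module.finrank ℂ (Fin m → ℂ) := by
    rw [Module.finrank_fin_fun, Module.finrank_fin_fun, hdim]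
  have hker : LinearMap.ker f.toLinearMap = ⊥ := LinearMap.ker_eq_bot.2 hinj
  have hbij : Function.Bijective f.toLinearMap :=
    ⟨hinj, (LinearMap.injective_iff_surjective_of_finrank_eq_finrank hfr).1 hinj⟩
  refine ⟨LinearEquiv.ofBijective f.toLinearMap hbij, ?_⟩
  intro g v
  rw [LinearEquiv.ofBijective_apply, LinearEquiv.ofBijective_apply]
  exact LinearMap.congr_fun (f.isIntertwining' g) v

/-- Schur's lemma -/
lemma schur (r : Representation ℂ G (Fin n → ℂ)) (hr : r.IsIrreducible)
    (A : (Fin n → ℂ) →ₗ[ℂ] (Fin n → ℂ)) (hA : ∀ g v, A (r g v) = r g (A v)) :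
    ∃ c : ℂ, ∀ v, A v = c • v := by
  haveI := hr
  let f : IntertwiningMap r r := ⟨A, fun g => LinearMap.ext fun v => hA g v⟩
  obtain ⟨c, hc⟩ := (IsIrreducible.algebraMap_intertwiningMap_bijective_of_isAlgClosed
    (ρ := r)).2 f
  refine ⟨c, fun v => ?_⟩
  have h := congrArg (fun f : IntertwiningMap r r => f.toLinearMap v) hc
  have h2 : f.toLinearMap v = A v := rfl
  rw [← h2, ← h, IntertwiningMap.algebraMap_apply]
  rfl

/-- Schur's lemma for two intertwiners -/
lemma schur2 (r : Representation ℂ G (Fin n → ℂ)) (hr : r.IsIrreducible) (s : G → G)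
    (A B : (Fin n → ℂ) →ₗ[ℂ] (Fin n → ℂ)) (hA : ∀ g, A ∘ₗ r g = r (s g) ∘ₗ A)
    (hB : ∀ g, B ∘ₗ r g = r (s g) ∘ₗ B) (hb : Function.Bijective B) :
    ∃ c : ℂ, A = c • B := by
  let e := LinearEquiv.ofBijective B hb
  have he : ∀ v, e v = B v := fun v => rfl
  have key : ∀ g v, e.symm (r (s g) v) = r g (e.symm v) := by
    intro g v
    apply e.injective
    rw [e.apply_symm_apply, he]
    have := LinearMap.congr_fun (hB g) (e.symm v)
    simp only [LinearMap.comp_apply] at this
    rw [this, ← he, e.apply_symm_apply]
  obtain ⟨c, hc⟩ := schur r hr (e.symm.toLinearMap ∘ₗ A) (by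
    intro g v
    simp only [LinearMap.comp_apply, LinearEquiv.coe_coe]
    have := LinearMap.congr_fun (hA g) v
    simp only [LinearMap.comp_apply] at this
    rw [this, key])
  refine ⟨c, LinearMap.ext fun v => ?_⟩
  have h1 := hc v
  simp only [LinearMap.comp_apply, LinearEquiv.coe_coe] at h1
  have h2 := congrArg e h1
  rw [e.apply_symm_apply, map_smul, he] at h2
  rw [h2]
  rfl

lemma exists_ne_zero (r : Representation ℂ G (Fin n → ℂ)) (hr : r.IsIrreducible) :
    ∃ v : Fin n → ℂ, v ≠ 0 := by
  by_contra hcon
  push_neg at hcon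
  haveI := hr
  have hs : (⊥ : Subrepresentation r) = ⊤ := by
    apply SetLike.ext
    intro x
    constructor
    · intro _
      have : x = 0 := hcon x
      rw [this]
      exact (⊤ : Subrepresentation r).toSubmodule.zero_mem
    · intro _
      have : x = 0 := hcon x
      rw [this]
      exact (⊥ : Subrepresentation r).toSubmodule.zero_mem
  exact bot_ne_top hs

theorem xs : AMe.T_XS := by
  intro G P _ _ _ _ ρ θ hθ hinv
  obtain ⟨n, r, hr, hrθ⟩ := hθ
  have hchar : ∀ g, r.character g = θ g := fun g => congrFun hrθ g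
  constructor
  · -- existence
    have hT : ∀ p : P, ∃ f : (Fin n → ℂ) ≃ₗ[ℂ] (Fin n → ℂ), ∀ g v, f (r g v) = r (ρ p g) (f v) := by
      intro p
      obtain ⟨f, hf⟩ := exists_iso r hr (r.comp (ρ p).toMonoidHom) (by
        intro g
        have h1 : Representation.character (r.comp (ρ p).toMonoidHom) g =
            r.character (ρ p g) := rfl
        rw [h1, hchar, hchar, hinv])
      exact ⟨f, hf⟩
    choose T hT using hT
    have hTc : ∀ p g, (T p).toLinearMap ∘ₗ r g = r (ρ p g) ∘ₗ (T p).toLinearMap := by
      intro p g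
      exact LinearMap.ext fun v => hT p g v
    have hTT : ∀ p q, ∃ a : ℂ, (T p).toLinearMap ∘ₗ (T q).toLinearMap =
        a • (T (p * q)).toLinearMap := by
      intro p q
      apply schur2 r hr (fun g => ρ (p * q) g) _ _ _ (hTc (p * q)) (T (p * q)).bijective
      intro g
      apply LinearMap.ext
      intro v
      simp only [LinearMap.comp_apply, LinearEquiv.coe_coe]
      rw [hT q, hT p, map_mul, MulAut.mul_apply]
    choose α hα using hTT
    exact ⟨α, n, r, hr, hrθ, fun p => (T p).toLinearMap, fun p => (T p).bijective, hTc, hα⟩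
  · rintro α ⟨n, r, hr, hrθ, T, hTb, hTc, hTT⟩ α'
    have hT0 : ∀ p, T p ≠ 0 := by
      intro p hp
      obtain ⟨v, hv⟩ := exists_ne_zero r hr
      apply hv
      apply (hTb p).1
      rw [hp]
      simp
    constructor
    · rintro ⟨n', r', hr', hrθ', T', hTb', hTc', hTT'⟩
      obtain ⟨S, hS⟩ := exists_iso r hr r' (by
        intro g
        rw [hrθ, hrθ'])
      have hSs : ∀ g v, S.symm (r' g v) = r g (S.symm v) := by
        intro g v
        apply S.injective
        rw [S.apply_symm_apply, hS, S.apply_symm_apply]
      set U : P → ((Fin n → ℂ) →ₗ[ℂ] (Fin n → ℂ)) := fun p =>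
        S.symm.toLinearMap ∘ₗ T' p ∘ₗ S.toLinearMap with hU
      have hUc : ∀ p g, U p ∘ₗ r g = r (ρ p g) ∘ₗ U p := by
        intro p g
        apply LinearMap.ext
        intro v
        simp only [hU, LinearMap.comp_apply, LinearEquiv.coe_coe]
        have := LinearMap.congr_fun (hTc' p g) (S v)
        simp only [LinearMap.comp_apply] at this
        rw [hS, this, hSs]
      have hcc : ∀ p, ∃ c : ℂ, U p = c • T p := fun p =>
        schur2 r hr (fun g => ρ p g) _ _ (hUc p) (hTc p) (hTb p)
      choose c hc using hcc
      have hUb : ∀ p, U p ≠ 0 := by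
        intro p hp
        obtain ⟨v, hv⟩ := exists_ne_zero r hr
        apply hv
        have h1 : U p v = 0 := by rw [hp]; rfl
        simp only [hU, LinearMap.comp_apply, LinearEquiv.coe_coe] at h1
        have h2 := (LinearEquiv.map_eq_zero_iff _).1 h1
        have h3 : T' p (S v) = T' p 0 := by rw [h2, map_zero]
        have h4 := (hTb' p).1 h3
        exact (LinearEquiv.map_eq_zero_iff _).1 h4
      refine ⟨c, ?_, ?_⟩
      · intro p hp
        apply hUb p
        rw [hc, hp, zero_smul]
      · intro p q
        have hUU : U p ∘ₗ U q = α' p q • U (p * q) := by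
          apply LinearMap.ext
          intro v
          simp only [hU, LinearMap.comp_apply, LinearEquiv.coe_coe, LinearMap.smul_apply,
            LinearEquiv.apply_symm_apply]
          have := LinearMap.congr_fun (hTT' p q) (S v)
          simp only [LinearMap.comp_apply, LinearMap.smul_apply] at this
          rw [this, map_smul]
        rw [hc p, hc q, hc (p * q), LinearMap.smul_comp, LinearMap.comp_smul, hTT p q, smul_smul,
          smul_smul, smul_smul] at hUU
        obtain ⟨v, hv⟩ : ∃ v, T (p * q) v ≠ 0 := by
          by_contra hcon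
          push Not at hcon
          exact hT0 (p * q) (LinearMap.ext fun v => by rw [hcon v]; rfl)
        have h5 : (c p * c q * α p q) • T (p * q) v = (α' p q * c (p * q)) • T (p * q) v :=
          LinearMap.congr_fun hUU v
        exact (smul_left_injective ℂ hv h5).symm
    · rintro ⟨c, hc0, hc⟩
      refine ⟨n, r, hr, hrθ, fun p => c p • T p, ?_, ?_, ?_⟩
      · intro p
        constructor
        · intro v w hvw
          apply (hTb p).1
          have h1 : c p • T p v = c p • T p w := hvw
          exact smul_right_injective _ (hc0 p) h1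
        · intro v
          obtain ⟨w, hw⟩ := (hTb p).2 ((c p)⁻¹ • v)
          refine ⟨w, ?_⟩
          show c p • T p w = v
          rw [hw, smul_smul, mul_inv_cancel₀ (hc0 p), one_smul]
      · intro p g
        rw [LinearMap.smul_comp, LinearMap.comp_smul, hTc]
      · intro p q
        rw [LinearMap.smul_comp, LinearMap.comp_smul, hTT p q, smul_smul, smul_smul, smul_smul]
        congr 1
        linear_combination -(hc p q)

end Pool.Agent.H31.EA.XS
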