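import Pool.Agent.H77.EA.Targets3

/-! XX: Burnside's theorem on marks, with colours. -/

open scoped Classical

namespace Pool.Agent.H31.EA.XX

section

variable {H A B T : Type} [Group H] [Finite H] [Finite A] [Finite B]

/-- a partial equivariant colour-preserving injection -/
structure Good (α : H →* Equiv.Perm A) (β : H →* Equiv.Perm B) (c : A → T) (d : B → T)
    (A' : Set A) (f : A → B) : Prop where
  inv : ∀ h, ∀ a ∈ A', α h a ∈ A'
  inj : Set.InjOn f A'
  equ : ∀ h, ∀ a ∈ A', f (α h a) = β h (f a)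
  col : ∀ a ∈ A', d (f a) = c a

lemma good_empty (α : H →* Equiv.Perm A) (β : H →* Equiv.Perm B) (c : A → T) (d : B → T)
    (f : A → B) : Good α β c d ∅ f :=
  ⟨fun _ _ h => h.elim, fun _ h => h.elim, fun _ _ h => h.elim, fun _ h => h.elim⟩

/-- the counts agree on the complements -/
lemma counts {α : H →* Equiv.Perm A} {β : H →* Equiv.Perm B} {c : A → T} {d : B → T}
    (hcount : ∀ (S : Subgroup H) (v : T), {a | c a = v ∧ ∀ s ∈ S, α s a = a}.ncard =
      {b | d b = v ∧ ∀ s ∈ S, β s b = b}.ncard) {A' : Set A} {f : A → B}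
    (hg : Good α β c d A' f) (S : Subgroup H) (v : T) :
    {a | a ∉ A' ∧ c a = v ∧ ∀ s ∈ S, α s a = a}.ncard =
      {b | b ∉ f '' A' ∧ d b = v ∧ ∀ s ∈ S, β s b = b}.ncard := by
  have h1 : {a | c a = v ∧ ∀ s ∈ S, α s a = a}.ncard =
      {a | a ∈ A' ∧ c a = v ∧ ∀ s ∈ S, α s a = a}.ncard +
      {a | a ∉ A' ∧ c a = v ∧ ∀ s ∈ S, α s a = a}.ncard := by
    rw [← Set.ncard_union_eq]
    · congr 1
      ext a
      simp only [Set.mem_ofPred_eq, Set.mem_union]
      tauto
    · rw [Set.disjoint_left]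
      rintro a ⟨h, _⟩ ⟨h', _⟩
      exact h' h
  have h2 : {b | d b = v ∧ ∀ s ∈ S, β s b = b}.ncard =
      {b | b ∈ f '' A' ∧ d b = v ∧ ∀ s ∈ S, β s b = b}.ncard +
      {b | b ∉ f '' A' ∧ d b = v ∧ ∀ s ∈ S, β s b = b}.ncard := by
    rw [← Set.ncard_union_eq]
    · congr 1
      ext a
      simp only [Set.mem_ofPred_eq, Set.mem_union]
      tauto
    · rw [Set.disjoint_left]
      rintro a ⟨h, _⟩ ⟨h', _⟩
      exact h' h
  have h3 : {b | b ∈ f '' A' ∧ d b = v ∧ ∀ s ∈ S, β s b = b} =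
      f '' {a | a ∈ A' ∧ c a = v ∧ ∀ s ∈ S, α s a = a} := by
    ext b
    simp only [Set.mem_ofPred_eq, Set.mem_image]
    constructor
    · rintro ⟨⟨a, ha, rfl⟩, hd, hs⟩
      refine ⟨a, ⟨ha, ?_, ?_⟩, rfl⟩
      · rw [← hg.col a ha, hd]
      · intro s hsS
        apply hg.inj (hg.inv s a ha) ha
        rw [hg.equ s a ha, hs s hsS]
    · rintro ⟨a, ⟨ha, hc, hs⟩, rfl⟩
      refine ⟨⟨a, ha, rfl⟩, ?_, ?_⟩
      · rw [hg.col a ha, hc]
      · intro s hsS
        rw [← hg.equ s a ha, hs s hsS]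
  have h4 : (f '' {a | a ∈ A' ∧ c a = v ∧ ∀ s ∈ S, α s a = a}).ncard =
      {a | a ∈ A' ∧ c a = v ∧ ∀ s ∈ S, α s a = a}.ncard := by
    apply Set.InjOn.ncard_image
    intro a ha b hb hab
    exact hg.inj ha.1 hb.1 hab
  have h5 := hcount S v
  rw [h1, h2, h3, h4] at h5
  omega

/-- the stabiliser -/
def stb (α : H →* Equiv.Perm A) (a : A) : Subgroup H where
  carrier := {h | α h a = a}
  mul_mem' := by
    intro x y hx hy
    simp only [Set.mem_ofPred_eq] at *
    rw [map_mul, Equiv.Perm.mul_apply, hy, hx]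
  one_mem' := by simp
  inv_mem' := by
    intro x hx
    simp only [Set.mem_ofPred_eq] at *
    rw [map_inv, Equiv.Perm.inv_eq_iff_eq]
    exact hx.symm

lemma mem_stb {α : H →* Equiv.Perm A} {a : A} {h : H} : h ∈ stb α a ↔ α h a = a := Iff.rfl

/-- two elements with the same colour and the same stabiliser -/
lemma pair {α : H →* Equiv.Perm A} {β : H →* Equiv.Perm B} {c : A → T} {d : B → T}
    {U : Set A} {V : Set B}
    (hc : ∀ (S : Subgroup H) (v : T), {a | a ∈ U ∧ c a = v ∧ ∀ s ∈ S, α s a = a}.ncard =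
      {b | b ∈ V ∧ d b = v ∧ ∀ s ∈ S, β s b = b}.ncard) (hU : U.Nonempty) :
    ∃ y ∈ U, ∃ x ∈ V, d x = c y ∧ ∀ h, α h y = y ↔ β h x = x := by
  obtain ⟨y, hyU, hy⟩ := Set.exists_max_image U (fun a => Nat.card (stb α a)) (Set.toFinite _) hU
  have hne : {a | a ∈ U ∧ c a = c y ∧ ∀ s ∈ stb α y, α s a = a}.Nonempty :=
    ⟨y, hyU, rfl, fun s hs => hs⟩
  have hpos := (Set.ncard_pos (Set.toFinite _)).2 hne
  rw [hc] at hpos
  obtain ⟨x, hxV, hdx, hxs⟩ := (Set.ncard_pos (Set.toFinite _)).1 hpos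
  have hne2 : {b | b ∈ V ∧ d b = d x ∧ ∀ s ∈ stb β x, β s b = b}.Nonempty :=
    ⟨x, hxV, rfl, fun s hs => hs⟩
  have hpos2 := (Set.ncard_pos (Set.toFinite _)).2 hne2
  rw [← hc] at hpos2
  obtain ⟨z, hzU, hcz, hzs⟩ := (Set.ncard_pos (Set.toFinite _)).1 hpos2
  have hle : stb α y ≤ stb β x := fun s hs => hxs s hs
  have hle2 : stb β x ≤ stb α z := fun s hs => hzs s hs
  have hcard : Nat.card (stb β x) ≤ Nat.card (stb α y) :=
    (Subgroup.card_le_of_le hle2).trans (hy z hzU)
  have heq : stb α y = stb β x := Subgroup.eq_of_le_of_card_ge hle hcard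
  refine ⟨y, hyU, x, hxV, hdx, fun h => ?_⟩
  have : h ∈ stb α y ↔ h ∈ stb β x := by rw [heq]
  exact this

/-- extension by one orbit -/
lemma extend {α : H →* Equiv.Perm A} {β : H →* Equiv.Perm B} {τ : H → T → T} {c : A → T}
    {d : B → T} (hcα : ∀ h a, c (α h a) = τ h (c a)) (hdβ : ∀ h b, d (β h b) = τ h (d b))
    {A' : Set A} {f : A → B} (hg : Good α β c d A' f) {y : A} {x : B} (hy : y ∉ A')
    (hx : x ∉ f '' A') (hxy : d x = c y) (hst : ∀ h, α h y = y ↔ β h x = x) :
    ∃ f' : A → B, Good α β c d (A' ∪ Set.range fun h => α h y) f' := by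
  have hdis : ∀ h, α h y ∉ A' := by
    intro h hh
    apply hy
    have := hg.inv h⁻¹ _ hh
    rwa [← Equiv.Perm.mul_apply, ← map_mul, inv_mul_cancel, map_one] at this
  have hkey : ∀ h k, α h y = α k y ↔ β h x = β k x := by
    intro h k
    have e1 : α h y = α k y ↔ α (k⁻¹ * h) y = y := by
      rw [map_mul, Equiv.Perm.mul_apply, map_inv, Equiv.Perm.inv_eq_iff_eq]
    have e2 : β h x = β k x ↔ β (k⁻¹ * h) x = x := by
      rw [map_mul, Equiv.Perm.mul_apply, map_inv, Equiv.Perm.inv_eq_iff_eq]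
    rw [e1, e2, hst]
  set f' : A → B := fun a => if h : ∃ h, α h y = a then β h.choose x else f a with hf'
  have hf1 : ∀ h, f' (α h y) = β h x := by
    intro h
    have hex : ∃ k, α k y = α h y := ⟨h, rfl⟩
    simp only [hf', dif_pos hex]
    exact (hkey _ _).1 hex.choose_spec
  have hf2 : ∀ a ∈ A', f' a = f a := by
    intro a ha
    have hex : ¬ ∃ k, α k y = a := by
      rintro ⟨k, rfl⟩
      exact hdis k ha
    simp only [hf', dif_neg hex]
  refine ⟨f', ?_, ?_, ?_, ?_⟩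
  · rintro h a (ha | ⟨k, rfl⟩)
    · exact Or.inl (hg.inv h a ha)
    · refine Or.inr ⟨h * k, ?_⟩
      simp only [map_mul, Equiv.Perm.mul_apply]
  · rintro a (ha | ⟨k, rfl⟩) b (hb | ⟨l, rfl⟩) hab
    · rw [hf2 a ha, hf2 b hb] at hab
      exact hg.inj ha hb hab
    · exfalso
      rw [hf2 a ha] at hab
      simp only [hf1] at hab
      apply hx
      refine ⟨α l⁻¹ a, hg.inv _ a ha, ?_⟩
      rw [hg.equ _ a ha, hab, ← Equiv.Perm.mul_apply, ← map_mul, inv_mul_cancel, map_one]
      rfl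
    · exfalso
      rw [hf2 b hb] at hab
      simp only [hf1] at hab
      apply hx
      refine ⟨α k⁻¹ b, hg.inv _ b hb, ?_⟩
      rw [hg.equ _ b hb, ← hab, ← Equiv.Perm.mul_apply, ← map_mul, inv_mul_cancel, map_one]
      rfl
    · simp only [hf1] at hab
      exact (hkey _ _).2 hab
  · rintro h a (ha | ⟨k, rfl⟩)
    · rw [hf2 _ (hg.inv h a ha), hf2 a ha, hg.equ h a ha]
    · have : α h ((fun h => α h y) k) = α (h * k) y := by
        simp only [map_mul, Equiv.Perm.mul_apply]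
      rw [this, hf1]
      simp only [hf1, map_mul, Equiv.Perm.mul_apply]
  · rintro a (ha | ⟨k, rfl⟩)
    · rw [hf2 a ha, hg.col a ha]
    · simp only [hf1]
      rw [hdβ, hcα, hxy]

lemma full {α : H →* Equiv.Perm A} {β : H →* Equiv.Perm B} {τ : H → T → T} {c : A → T}
    {d : B → T} (hcα : ∀ h a, c (α h a) = τ h (c a)) (hdβ : ∀ h b, d (β h b) = τ h (d b))
    (hcount : ∀ (S : Subgroup H) (v : T), {a | c a = v ∧ ∀ s ∈ S, α s a = a}.ncard =
      {b | d b = v ∧ ∀ s ∈ S, β s b = b}.ncard) :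
    ∀ (k : ℕ) (A' : Set A) (f : A → B), Good α β c d A' f → (A'ᶜ).ncard = k →
      ∃ f' : A → B, Good α β c d Set.univ f' := by
  intro k
  induction k using Nat.strong_induction_on with
  | _ k ih =>
    intro A' f hg hk
    by_cases hne : (A'ᶜ).Nonempty
    · obtain ⟨y, hyU, x, hxV, hxy, hst⟩ := pair (α := α) (β := β) (c := c) (d := d)
        (U := A'ᶜ) (V := (f '' A')ᶜ) (fun S v => counts hcount hg S v) hne
      obtain ⟨f', hf'⟩ := extend hcα hdβ hg hyU hxV hxy hst
      refine ih _ ?_ _ f' hf' rfl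
      rw [← hk]
      apply Set.ncard_lt_ncard _ (Set.toFinite _)
      refine ⟨?_, ?_⟩
      · intro a ha ha'
        exact ha (Or.inl ha')
      · intro hsub
        have := hsub hyU
        apply this
        refine Or.inr ⟨1, ?_⟩
        simp
    · rw [Set.not_nonempty_iff_eq_empty, Set.compl_empty_iff] at hne
      subst hne
      exact ⟨f, hg⟩

end

theorem xx : AMe.T_XX := by
  intro H A B T _ _ _ _ α β τ c d hcα hdβ hcount
  by_cases hB : Nonempty B
  · obtain ⟨b0⟩ := hB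
    obtain ⟨f, hf⟩ := full hcα hdβ hcount _ ∅ (fun _ => b0) (good_empty α β c d _) rfl
    have hinj : Function.Injective f := fun a b h => hf.inj trivial trivial h
    have hsurj : Function.Surjective f := by
      intro b
      by_contra hb
      have h1 := counts hcount hf ⊥ (d b)
      have h2 : {a | a ∉ (Set.univ : Set A) ∧ c a = d b ∧ ∀ s ∈ (⊥ : Subgroup H), α s a = a} = ∅ := by
        ext a
        simp
      rw [h2, Set.ncard_empty] at h1
      have h3 : b ∈ {b' | b' ∉ f '' Set.univ ∧ d b' = d b ∧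
          ∀ s ∈ (⊥ : Subgroup H), β s b' = b'} := by
        refine ⟨?_, rfl, ?_⟩
        · rintro ⟨a, _, ha⟩
          exact hb ⟨a, ha⟩
        · intro s hs
          rw [Subgroup.mem_bot] at hs
          subst hs
          simp
      have h4 := (Set.ncard_pos (Set.toFinite _)).2 ⟨b, h3⟩
      omega
    refine ⟨Equiv.ofBijective f ⟨hinj, hsurj⟩, ?_, ?_⟩
    · intro h a
      simp only [Equiv.ofBijective_apply]
      exact hf.equ h a trivial
    · intro a
      simp only [Equiv.ofBijective_apply]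
      exact hf.col a trivial
  · rw [not_nonempty_iff] at hB
    have hA : IsEmpty A := by
      rw [← not_nonempty_iff]
      rintro ⟨a⟩
      have h1 := hcount ⊥ (c a)
      have h2 : {b | d b = c a ∧ ∀ s ∈ (⊥ : Subgroup H), β s b = b} = ∅ := by
        ext b
        exact hB.elim b
      rw [h2, Set.ncard_empty] at h1
      have h3 : a ∈ {a' | c a' = c a ∧ ∀ s ∈ (⊥ : Subgroup H), α s a' = a'} := by
        refine ⟨rfl, ?_⟩
        intro s hs
        rw [Subgroup.mem_bot] at hs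
        subst hs
        simp
      have h4 := (Set.ncard_pos (Set.toFinite _)).2 ⟨a, h3⟩
      omega
    refine ⟨Equiv.equivOfIsEmpty A B, ?_, ?_⟩
    · intro h a
      exact hA.elim a
    · intro a
      exact hA.elim a

end Pool.Agent.H31.EA.XX
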